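import Pool.Agent.H5.OR.Targets

/-!
# Half trees of the Cayley tree (board org_modules, row CA)
-/

set_option autoImplicit false

open scoped Classical

namespace Pool.Agent.H70.OR.CA

open ORg

private theorem nv_nv {X : Type} (x : X × Bool) : nv (nv x) = x := by
  unfold nv
  simp

private theorem lw_nv {X : Type} (x : X × Bool) : lw (nv x) = (lw x)⁻¹ := by
  simp [lw, nv, FreeGroup.inv_mk, FreeGroup.invRev]

/-- left multiplication by a letter -/
theorem tw {X : Type} (x : X × Bool) (k : FreeGroup X) :
    (lw x * k).toWord = if k.toWord.head? = some (nv x) then k.toWord.tail else x :: k.toWord := by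
  have h1 : lw x * k = FreeGroup.mk (x :: k.toWord) := by
    conv_lhs => rw [← FreeGroup.mk_toWord (x := k)]
    unfold lw
    rw [FreeGroup.mul_mk]
    rfl
  rw [h1, FreeGroup.toWord_mk, FreeGroup.reduce.cons, FreeGroup.reduce_toWord]
  cases hk : k.toWord with
  | nil => simp
  | cons hd tl =>
    simp only [List.head?_cons, Option.some.injEq, List.tail_cons]
    by_cases h : hd = nv x
    · rw [if_pos h]
      subst h
      simp [nv]
    · rw [if_neg h, if_neg]
      rintro ⟨e1, e2⟩
      apply h
      unfold nv
      rw [e1, e2]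
      simp

theorem tw_lw {X : Type} (x : X × Bool) : (lw x).toWord = [x] := by
  have := tw x (1 : FreeGroup X)
  simpa using this

/-- the word of `k` starts with `x` -/
theorem tw_cons {X : Type} {x : X × Bool} {k : FreeGroup X} {tl : List (X × Bool)}
    (h : k.toWord = x :: tl) : (lw (nv x) * k).toWord = tl ∧ tl.head? ≠ some (nv x) := by
  have h1 : (lw (nv x) * k).toWord = tl := by
    rw [tw, h, nv_nv]
    simp
  refine ⟨h1, fun h2 => ?_⟩
  have h3 := tw x (lw (nv x) * k)
  rw [h1, if_pos h2, ← mul_assoc, lw_nv, mul_inv_cancel, one_mul, h] at h3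
  have := congrArg List.length h3
  simp at this
  omega

/-- right multiplication by a letter -/
theorem tw_right {X : Type} (y : X × Bool) (tl : List (X × Bool)) :
    ∀ (x : X × Bool) (k : FreeGroup X), k.toWord = x :: tl →
    (k * lw y).toWord.head? = some x ∨ (tl = [] ∧ y = nv x) := by
  induction tl with
  | nil =>
    intro x k hk
    have hkx : k = lw x := FreeGroup.toWord_injective (by rw [hk, tw_lw])
    by_cases h : y = nv x
    · exact Or.inr ⟨rfl, h⟩
    · left
      rw [hkx, tw, tw_lw, if_neg]
      · rfl
      · simpa using h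
  | cons z tl ih =>
    intro x k hk
    left
    obtain ⟨h1, h2⟩ := tw_cons hk
    have hk2 : k = lw x * (lw (nv x) * k) := by
      rw [← mul_assoc, lw_nv, mul_inv_cancel, one_mul]
    set h := lw (nv x) * k with hh
    rw [hk2, mul_assoc, tw]
    rcases ih z h h1 with h3 | ⟨h3, h4⟩
    · rw [if_neg]
      · rfl
      · rw [h3]
        simpa using h2
    · have hhz : h = lw z := FreeGroup.toWord_injective (by rw [h1, h3, tw_lw])
      rw [hhz, h4, lw_nv, mul_inv_cancel, FreeGroup.toWord_one]
      simp

theorem pf_CA : T_CA := by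
  intro X v
  have e0 : ∀ (g : FreeGroup X) x, (v * lw x)⁻¹ * g = lw (nv x) * (v⁻¹ * g) := by
    intro g x
    rw [lw_nv]
    group
  have e1 : ∀ (g : FreeGroup X) x, v⁻¹ * g = lw x * ((v * lw x)⁻¹ * g) := by
    intro g x
    group
  refine ⟨?_, ?_, ?_, ?_, ?_, ?_, ?_⟩
  · intro g
    cases hk : (v⁻¹ * g).toWord with
    | nil =>
      left
      have : v⁻¹ * g = 1 := FreeGroup.toWord_injective (by rw [hk, FreeGroup.toWord_one])
      exact (inv_mul_eq_one.mp this).symm
    | cons x tl =>
      right
      refine ⟨x, ?_⟩
      change (v⁻¹ * g).toWord.head? = some x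
      rw [hk]
      rfl
  · intro x hx
    change (v⁻¹ * v).toWord.head? = some x at hx
    rw [inv_mul_cancel, FreeGroup.toWord_one] at hx
    simp at hx
  · intro g x y hx hy
    change (v⁻¹ * g).toWord.head? = some x at hx
    change (v⁻¹ * g).toWord.head? = some y at hy
    rw [hx] at hy
    exact Option.some.inj hy
  · intro g x
    constructor
    · intro hx
      change (v⁻¹ * g).toWord.head? = some x at hx
      obtain ⟨tl, htl⟩ := List.head?_eq_some_iff.mp hx
      obtain ⟨h1, h2⟩ := tw_cons htl
      cases tl with
      | nil =>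
        left
        have h3 : lw (nv x) * (v⁻¹ * g) = 1 :=
          FreeGroup.toWord_injective (by rw [h1, FreeGroup.toWord_one])
        rw [← e0] at h3
        exact (inv_mul_eq_one.mp h3).symm
      | cons y tl =>
        right
        refine ⟨y, fun hy => h2 (by rw [hy]; rfl), ?_⟩
        change ((v * lw x)⁻¹ * g).toWord.head? = some y
        rw [e0, h1]
        rfl
    · rintro (hx | ⟨y, hy, hg⟩)
      · change (v⁻¹ * g).toWord.head? = some x
        rw [hx, inv_mul_cancel_left, tw_lw]
        rfl
      · change ((v * lw x)⁻¹ * g).toWord.head? = some y at hg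
        change (v⁻¹ * g).toWord.head? = some x
        rw [e1 g x, tw, if_neg]
        · rfl
        · rw [hg]
          simpa using hy
  · intro g h x
    change ((g * v)⁻¹ * (g * h)).toWord.head? = some x ↔ (v⁻¹ * h).toWord.head? = some x
    have : (g * v)⁻¹ * (g * h) = v⁻¹ * h := by group
    rw [this]
  · intro g x y hx hy
    change (v⁻¹ * g).toWord.head? = some x at hx
    change ¬ (v⁻¹ * (g * lw y)).toWord.head? = some x at hy
    rw [← mul_assoc] at hy
    obtain ⟨tl, htl⟩ := List.head?_eq_some_iff.mp hx
    rcases tw_right y tl x _ htl with h | ⟨h1, h2⟩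
    · exact absurd h hy
    · refine ⟨?_, h2⟩
      have h3 : v⁻¹ * g = lw x := FreeGroup.toWord_injective (by rw [htl, h1, tw_lw])
      rw [← h3, mul_inv_cancel_left]
  · intro g x y hy hg
    change ((v * lw x)⁻¹ * g).toWord.head? = some y at hg
    unfold FreeGroup.norm
    rw [e1 g x, tw, if_neg, List.length_cons]
    rw [hg]
    simpa using hy

end Pool.Agent.H70.OR.CA
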