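import Pool.Agent.H5.OR.Targets

/-!
# Lines and half trees (board org_modules, row CL)
-/

set_option autoImplicit false

open scoped Classical

namespace Pool.Agent.H70.OR

open ORg

private theorem nv_nv {X : Type} (x : X × Bool) : nv (nv x) = x := by
  unfold nv
  simp

private theorem lw_nv {X : Type} (x : X × Bool) : lw (nv x) = (lw x)⁻¹ := by
  simp [lw, nv, FreeGroup.inv_mk, FreeGroup.invRev]

theorem pf_CL (CA : T_CA) : T_CL := by
  intro X w L lt u hu
  have back : ∀ i, u (i + 1) * lw (nv (lt i)) = u i := by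
    intro i
    rw [hu.step, lw_nv, mul_inv_cancel_right]
  have red' : ∀ i, nv (lt i) ≠ lt (i + 1) := fun i h => hu.red i h.symm
  -- one step down
  have down : ∀ (g : FreeGroup X) i y, y ≠ nv (lt i) → g ∈ Cn (u (i + 1)) y →
      g ∈ Cn (u i) (lt i) := by
    intro g i y hy hg
    obtain ⟨-, -, -, c4, -⟩ := CA X (u i)
    rw [c4 g (lt i), ← hu.step]
    exact Or.inr ⟨y, hy, hg⟩
  -- one step up
  have up : ∀ (g : FreeGroup X) i y, y ≠ lt i → g ∈ Cn (u i) y →
      g ∈ Cn (u (i + 1)) (nv (lt i)) := by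
    intro g i y hy hg
    obtain ⟨-, -, -, c4, -⟩ := CA X (u (i + 1))
    rw [c4 g (nv (lt i)), back, nv_nv]
    exact Or.inr ⟨y, hy, hg⟩
  have downs : ∀ (g : FreeGroup X) (n : ℕ) i y, y ≠ nv (lt (i + n)) →
      g ∈ Cn (u (i + n + 1)) y → g ∈ Cn (u i) (lt i) := by
    intro g n
    induction n with
    | zero =>
      intro i y hy hg
      simp only [Nat.cast_zero, add_zero] at hy hg
      exact down g i y hy hg
    | succ n ih =>
      intro i y hy hg
      have e1 : i + ((n + 1 : ℕ) : ℤ) = i + 1 + n := by push_cast; ring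
      rw [e1] at hy hg
      exact down g i (lt (i + 1)) (hu.red i) (ih (i + 1) y hy hg)
  have ups : ∀ (g : FreeGroup X) (n : ℕ) i y, y ≠ lt i → g ∈ Cn (u i) y →
      g ∈ Cn (u (i + n + 1)) (nv (lt (i + n))) := by
    intro g n
    induction n with
    | zero =>
      intro i y hy hg
      simp only [Nat.cast_zero, add_zero]
      exact up g i y hy hg
    | succ n ih =>
      intro i y hy hg
      have e1 : i + ((n + 1 : ℕ) : ℤ) = i + n + 1 := by push_cast; ring
      rw [e1]
      exact up g (i + n + 1) (nv (lt (i + n))) (red' (i + n)) (ih i y hy hg)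
  have h1 : ∀ i j, i < j → u j ∈ Cn (u i) (lt i) := by
    intro i j hij
    obtain ⟨n, hn⟩ := Int.eq_ofNat_of_zero_le (show 0 ≤ j - i - 1 by omega)
    have hj : j = i + n + 1 := by omega
    rw [hj]
    -- `u (i+n+1)` is the neighbour of `u (i+n)`
    have e0 : u (i + n + 1) ∈ Cn (u (i + n)) (lt (i + n)) := by
      obtain ⟨-, -, -, c4, -⟩ := CA X (u (i + n))
      rw [c4]
      exact Or.inl (hu.step _)
    rcases Nat.eq_zero_or_pos n with h0 | hpos
    · subst h0
      simpa using e0
    · obtain ⟨k, rfl⟩ : ∃ k, n = k + 1 := ⟨n - 1, by omega⟩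
      have e1 : i + ((k + 1 : ℕ) : ℤ) = i + k + 1 := by push_cast; ring
      rw [e1] at e0 ⊢
      exact downs _ k i _ (hu.red (i + k)) e0
  have h2 : ∀ i j, j < i → u j ∈ Cn (u i) (nv (lt (i - 1))) := by
    intro i j hij
    obtain ⟨n, hn⟩ := Int.eq_ofNat_of_zero_le (show 0 ≤ i - j - 1 by omega)
    have hi : i = j + n + 1 := by omega
    have e0 : u j ∈ Cn (u (j + 1)) (nv (lt j)) := by
      obtain ⟨-, -, -, c4, -⟩ := CA X (u (j + 1))
      rw [c4]
      exact Or.inl (back _).symm
    have e2 : i - 1 = j + n := by omega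
    rw [e2, hi]
    rcases Nat.eq_zero_or_pos n with h0 | hpos
    · subst h0
      simpa using e0
    · obtain ⟨k, rfl⟩ : ∃ k, n = k + 1 := ⟨n - 1, by omega⟩
      have e1 : j + ((k + 1 : ℕ) : ℤ) = j + 1 + k := by push_cast; ring
      rw [e1]
      exact ups _ k (j + 1) _ (red' j) e0
  have h3 : Function.Injective u := by
    intro i j hij
    by_contra hne
    rcases lt_or_gt_of_ne hne with h | h
    · have := h1 i j h
      rw [← hij] at this
      exact (CA X (u i)).2.1 _ this
    · have := h1 j i h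
      rw [hij] at this
      exact (CA X (u j)).2.1 _ this
  have h4 : ∀ (i k : ℤ), u (i + L * k) = w ^ k * u i := by
    intro i k
    induction k using Int.induction_on with
    | zero => simp
    | succ k ih =>
      have e1 : i + (L : ℤ) * ((k : ℤ) + 1) = i + L * k + L := by ring
      rw [e1, hu.per, ih, ← mul_assoc, add_comm (k : ℤ) 1, zpow_add, zpow_one]
    | pred k ih =>
      have e1 : i + (L : ℤ) * (-(k : ℤ)) = (i + L * (-(k : ℤ) - 1)) + L := by ring
      rw [e1, hu.per] at ih
      have e2 : u (i + L * (-(k : ℤ) - 1)) = w⁻¹ * (w ^ (-(k : ℤ)) * u i) := by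
        rw [← ih, inv_mul_cancel_left]
      rw [e2, ← mul_assoc, sub_eq_add_neg, add_comm (-(k : ℤ)) (-1), zpow_add, zpow_neg_one]
  have h5 : ∀ (i k : ℤ), lt (i + L * k) = lt i := by
    intro i k
    induction k using Int.induction_on with
    | zero => simp
    | succ k ih =>
      have e1 : i + (L : ℤ) * ((k : ℤ) + 1) = i + L * k + L := by ring
      rw [e1, hu.lper, ih]
    | pred k ih =>
      have e1 : i + (L : ℤ) * (-(k : ℤ)) = (i + L * (-(k : ℤ) - 1)) + L := by ring
      rw [e1, hu.lper] at ih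
      exact ih
  refine ⟨h1, h2, h3, h4, h5, ?_, ?_, ?_⟩
  · intro g
    have hex : ∃ n : ℕ, ∃ i, ((u i)⁻¹ * g).norm = n := ⟨_, 0, rfl⟩
    obtain ⟨i, hi⟩ := Nat.find_spec hex
    have hmin : ∀ j, ((u i)⁻¹ * g).norm ≤ ((u j)⁻¹ * g).norm := by
      intro j
      rw [hi]
      exact Nat.find_min' hex ⟨j, rfl⟩
    obtain ⟨c1, -, -, c4, -, -, c7⟩ := CA X (u i)
    rcases c1 g with h | ⟨x, hx⟩
    · exact Or.inl ⟨i, h⟩
    by_cases hx1 : x = lt i
    · rw [hx1, c4] at hx
      rcases hx with h | ⟨y, hy, hg⟩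
      · exact Or.inl ⟨i + 1, by rw [hu.step]; exact h⟩
      · have e1 := c7 g (lt i) y hy hg
        rw [← hu.step] at e1
        have := hmin (i + 1)
        omega
    by_cases hx2 : x = nv (lt (i - 1))
    · have e0 : u i * lw (nv (lt (i - 1))) = u (i - 1) := by
        have := back (i - 1)
        rwa [sub_add_cancel] at this
      rw [hx2, c4] at hx
      rcases hx with h | ⟨y, hy, hg⟩
      · exact Or.inl ⟨i - 1, by rw [← e0]; exact h⟩
      · have e1 := c7 g _ y hy hg
        rw [e0] at e1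
        have := hmin (i - 1)
        omega
    · exact Or.inr ⟨i, x, hx2, hx1, hx⟩
  · intro i x hx1 hx2 j hj
    obtain ⟨-, c2, c3, -⟩ := CA X (u i)
    rcases lt_trichotomy i j with h | h | h
    · exact hx2 (c3 _ _ _ hj (h1 i j h))
    · rw [← h] at hj
      exact c2 _ hj
    · exact hx1 (c3 _ _ _ hj (h2 i j h))
  · intro g i j x y hx1 hx2 hy1 hy2 hgx hgy
    rcases lt_trichotomy i j with h | h | h
    · exfalso
      obtain ⟨n, hn⟩ := Int.eq_ofNat_of_zero_le (show 0 ≤ j - i - 1 by omega)
      have hj : j = i + n + 1 := by omega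
      have hj1 : j - 1 = i + n := by omega
      rw [hj1] at hy1
      rw [hj] at hgy
      exact hx2 ((CA X (u i)).2.2.1 _ _ _ hgx (downs g n i y hy1 hgy))
    · exact h
    · exfalso
      obtain ⟨n, hn⟩ := Int.eq_ofNat_of_zero_le (show 0 ≤ i - j - 1 by omega)
      have hi : i = j + n + 1 := by omega
      have hi1 : i - 1 = j + n := by omega
      have := ups g n j y hy2 hgy
      rw [← hi, ← hi1] at this
      exact hx1 ((CA X (u i)).2.2.1 _ _ _ hgx this)

end Pool.Agent.H70.OR
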