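import Pool.Agent.H5.OR.Targets

/-!
# The changes of colour (board org_modules, row SA)
-/

set_option autoImplicit false

open scoped Classical

namespace Pool.Agent.H70.OR.SA

open ORg

theorem pf_SA (TA : T_TA) : T_SA := by
  intro X _ S a b x0 hab
  obtain ⟨-, ta2, ta3, ta4, -, -, -, -, -, ta10⟩ := TA (FreeGroup X) S
  refine ⟨⋃ y : X × Bool, ({p : S.V × S.V | S.T.Adj p.1 p.2 ∧ x0 ∈ S.hs p.1 p.2 ∧
      lw y • x0 ∈ S.hs p.2 p.1} ∪ {p : S.V × S.V | S.T.Adj p.1 p.2 ∧ lw y • x0 ∈ S.hs p.1 p.2 ∧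
      x0 ∈ S.hs p.2 p.1}), ?_, ?_⟩
  · exact Set.finite_iUnion fun y => (ta10 x0 (lw y • x0)).union (ta10 (lw y • x0) x0)
  · intro g y hgy
    have h1 : x0 ∈ S.hs (g⁻¹ • a) (g⁻¹ • b) ↔ g • x0 ∈ S.hs a b := by
      have := ta3 g⁻¹ a b (g • x0)
      rwa [inv_smul_smul] at this
    have h2 : lw y • x0 ∈ S.hs (g⁻¹ • a) (g⁻¹ • b) ↔ (g * lw y) • x0 ∈ S.hs a b := by
      have := ta3 g⁻¹ a b (g • lw y • x0)
      rwa [inv_smul_smul, ← mul_smul] at this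
    have hadj : S.T.Adj (g⁻¹ • a) (g⁻¹ • b) := (ta2 g⁻¹ a b).mpr hab
    rw [Set.mem_iUnion]
    refine ⟨y, ?_⟩
    have h4 := ta4 _ _ hadj
    by_cases hc : g • x0 ∈ S.hs a b
    · left
      refine ⟨hadj, h1.mpr hc, ?_⟩
      rcases (h4 (lw y • x0)).1 with h | h
      · exact absurd ⟨fun _ => h2.mp h, fun _ => hc⟩ hgy
      · exact h
    · right
      have hc2 : (g * lw y) • x0 ∈ S.hs a b := by
        by_contra hcon
        exact hgy ⟨fun h => absurd h hc, fun h => absurd h hcon⟩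
      refine ⟨hadj, h2.mpr hc2, ?_⟩
      rcases (h4 x0).1 with h | h
      · exact absurd (h1.mp h) hc
      · exact h

end Pool.Agent.H70.OR.SA
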