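import Pool.Agent.H5.OR.Targets

/-!
# Serre's lemma (board org_modules, row TS)
-/

set_option autoImplicit false

open scoped Classical

namespace Pool.Agent.H70.OR

open ORg

theorem pf_TS (TA : T_TA) (TN : T_TN) (TP : T_TP) : T_TS := by
  intro G _ S hfg hfix
  obtain ⟨-, ta2, ta3, ta4, ta5, -, ta7, -, ta9, -⟩ := TA G S
  obtain ⟨-, tn2, -⟩ := TN G S
  -- two edges at a vertex
  have hdis : ∀ o c d : S.V, S.T.Adj o c → S.T.Adj o d → c ≠ d → ∀ v ∈ S.hs d o, v ∈ S.hs o c := by
    have key : ∀ o c d : S.V, S.T.Adj o c → S.T.Adj o d → c ≠ d → d ∈ S.hs o c := by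
      intro o c d hc hd hcd
      rcases (ta4 o c hc d).1 with h | h
      · exact h
      · exact absurd (ta7 c o hc.symm d o hd.symm h (ta5 o c hc).1).1 (Ne.symm hcd)
    intro o c d hc hd hcd v hv
    exact tn2 c o o d hc.symm hd (ta5 o c hc).1 (key o c d hc hd hcd) (key o d c hd hc hcd.symm)
      (ta5 o d hd).1 v hv
  -- the main step
  have main : ∀ (F : Set G) (s : G), (∃ a : S.V, ∀ h ∈ F, h • a = a) →
      ∃ a : S.V, (∀ h ∈ F, h • a = a) ∧ s • a = a := by
    intro F s hF
    have hex : ∃ n : ℕ, ∃ a b : S.V, (∀ h ∈ F, h • a = a) ∧ s • b = b ∧ S.T.dist a b = n := by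
      obtain ⟨a, ha⟩ := hF
      obtain ⟨b, hb⟩ := hfix s
      exact ⟨_, a, b, ha, hb, rfl⟩
    obtain ⟨a, b, ha, hb, hab⟩ := Nat.find_spec hex
    have hmin : ∀ a' b' : S.V, (∀ h ∈ F, h • a' = a') → s • b' = b' →
        S.T.dist a b ≤ S.T.dist a' b' := by
      intro a' b' h1 h2
      rw [hab]
      exact Nat.find_min' hex ⟨a', b', h1, h2, rfl⟩
    by_cases hne : a = b
    · exact ⟨a, ha, by rw [hne]; exact hb⟩
    exfalso
    obtain ⟨a1, haa1, hb1⟩ := ta9 a b hne
    obtain ⟨b1, hbb1, ha1⟩ := ta9 b a (Ne.symm hne)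
    have h1 : ∃ h ∈ F, h • a1 ≠ a1 := by
      by_contra hcon
      push Not at hcon
      have e1 := hmin a1 b hcon hb
      have e2 : S.T.dist b a1 < S.T.dist b a := hb1
      rw [S.T.dist_comm (u := b) (v := a1), S.T.dist_comm (u := b) (v := a)] at e2
      omega
    have h2 : s • b1 ≠ b1 := by
      intro hcon
      have e1 := hmin a b1 ha hcon
      have e2 : S.T.dist a b1 < S.T.dist a b := ha1
      omega
    obtain ⟨h, hF, hh⟩ := h1
    have hha := ha h hF
    -- the half tree of a is in the half tree of b1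
    have hsub : ∀ v ∈ S.hs a a1, v ∈ S.hs b1 b := by
      intro v hv
      by_cases hq : a = b1 ∧ a1 = b
      · rw [← hq.1, ← hq.2]
        exact hv
      have c1 : a1 ∈ S.hs b1 b := by
        rcases (ta4 b1 b hbb1.symm a1).1 with h' | h'
        · exact h'
        · exact absurd (ta7 b1 b hbb1.symm a a1 haa1 ha1 h') hq
      have c2 : b1 ∈ S.hs a1 a := by
        rcases (ta4 a1 a haa1.symm b1).1 with h' | h'
        · exact h'
        · have := ta7 a1 a haa1.symm b b1 hbb1 hb1 h'
          exact absurd ⟨this.2.symm, this.1.symm⟩ hq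
      exact tn2 b b1 a1 a hbb1 haa1.symm c1 ha1 hb1 c2 v hv
    have hclaim : ∀ k : G, k • a = a → k • a1 ≠ a1 → k • b ∈ S.hs b1 b := by
      intro k hk hk1
      refine hsub _ ?_
      have e1 : k • b ∈ S.hs (k • a1) a := by
        have := (ta3 k a1 a b).mpr hb1
        rwa [hk] at this
      have e2 : S.T.Adj a (k • a1) := by
        have := (ta2 k a a1).mpr haa1
        rwa [hk] at this
      exact hdis a a1 (k • a1) haa1 e2 (Ne.symm hk1) _ e1
    have hA : h • b ∈ S.hs b1 b := hclaim h hha hh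
    have hB : h⁻¹ • b ∈ S.hs b1 b := by
      refine hclaim h⁻¹ ?_ ?_
      · rw [inv_smul_eq_iff, hha]
      · intro hcon
        rw [inv_smul_eq_iff] at hcon
        exact hh hcon.symm
    have e3 : S.T.Adj b (s • b1) := by
      have := (ta2 s b b1).mpr hbb1
      rwa [hb] at this
    have hB2 : h⁻¹ • b ∈ S.hs b (s • b1) := hdis b (s • b1) b1 e3 hbb1 h2 _ hB
    have hax : S.Axis (h * s) b b1 := by
      refine (TP G S (h * s) b b1).1 hbb1 ?_ ?_
      · rw [mul_smul, hb]
        exact hA
      · have e4 := (ta3 h b (s • b1) (h⁻¹ • b)).mpr hB2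
        rw [smul_inv_smul] at e4
        rw [mul_smul, mul_smul, hb]
        exact e4
    obtain ⟨v, hv⟩ := hfix (h * s)
    have := (TP G S (h * s) b b1).2 hax 1 one_ne_zero v
    rw [zpow_one] at this
    exact this hv
  -- induction over the generators
  obtain ⟨F, hF⟩ := hfg.out
  have hfin : ∀ F : Finset G, ∃ v : S.V, ∀ h ∈ (F : Set G), h • v = v := by
    intro F
    induction F using Finset.induction_on with
    | empty =>
      obtain ⟨v, -⟩ := hfix 1
      exact ⟨v, fun h hh => by simp at hh⟩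
    | insert s F hs ih =>
      obtain ⟨v, hv1, hv2⟩ := main (F : Set G) s ih
      refine ⟨v, fun h hh => ?_⟩
      rw [Finset.coe_insert] at hh
      rcases hh with rfl | hh
      · exact hv2
      · exact hv1 h hh
  obtain ⟨v, hv⟩ := hfin F
  refine ⟨v, fun g => ?_⟩
  have hst : (F : Set G) ⊆ (MulAction.stabilizer G v : Set G) := fun h hh => hv h hh
  have hle : Subgroup.closure (F : Set G) ≤ MulAction.stabilizer G v :=
    (Subgroup.closure_le _).mpr hst
  have : g ∈ Subgroup.closure (F : Set G) := by rw [hF]; trivial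
  exact hle this

end Pool.Agent.H70.OR
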