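import Pool.Agent.H5.OR.Targets3

/-!
# MP_e1fd52_al, board ors_modules, row KJ: characters with non-principal crossed homomorphisms
-/

set_option autoImplicit false

open scoped Classical

namespace Pool.Agent.H70.OR.KJ

open ORg

/-- affine maps -/
@[ext]
structure Aff where
  m : ℂˣ
  b : ℂ

instance : Mul Aff := ⟨fun x y => ⟨x.m * y.m, (x.m : ℂ) * y.b + x.b⟩⟩
instance : One Aff := ⟨⟨1, 0⟩⟩
instance : Inv Aff := ⟨fun x => ⟨x.m⁻¹, -(((x.m⁻¹ : ℂˣ) : ℂ) * x.b)⟩⟩

theorem mul_m (x y : Aff) : (x * y).m = x.m * y.m := rfl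
theorem mul_b (x y : Aff) : (x * y).b = (x.m : ℂ) * y.b + x.b := rfl
theorem one_m : (1 : Aff).m = 1 := rfl
theorem one_b : (1 : Aff).b = 0 := rfl
theorem inv_m (x : Aff) : (x⁻¹).m = x.m⁻¹ := rfl
theorem inv_b (x : Aff) : (x⁻¹).b = -(((x.m⁻¹ : ℂˣ) : ℂ) * x.b) := rfl

instance : Group Aff := Group.ofLeftAxioms
  (by
    intro x y z
    refine Aff.ext ?_ ?_
    · rw [mul_m, mul_m, mul_m, mul_m, mul_assoc]
    · rw [mul_b, mul_b, mul_b, mul_b, mul_m, Units.val_mul]
      ring)
  (by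
    intro x
    refine Aff.ext ?_ ?_
    · rw [mul_m, one_m, one_mul]
    · rw [mul_b, one_m, one_b, Units.val_one]
      ring)
  (by
    intro x
    refine Aff.ext ?_ ?_
    · rw [mul_m, inv_m, inv_mul_cancel, one_m]
    · rw [mul_b, inv_b, inv_m, one_b]
      ring)

/-- `(r ^ n - 1) / (r - 1)` -/
noncomputable def br (n : ℤ) (r : ℂˣ) : ℂ :=
  if r = 1 then (n : ℂ) else ((r : ℂ) ^ n - 1) / ((r : ℂ) - 1)

theorem sub_ne {r : ℂˣ} (h : r ≠ 1) : (r : ℂ) - 1 ≠ 0 := by
  intro h2
  apply h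
  apply Units.ext
  rw [Units.val_one]
  linear_combination h2

theorem br_add (i j : ℤ) (r : ℂˣ) : br (i + j) r = (r : ℂ) ^ i * br j r + br i r := by
  unfold br
  by_cases h : r = 1
  · rw [if_pos h, if_pos h, if_pos h, h, Units.val_one, one_zpow]
    push_cast
    ring
  · rw [if_neg h, if_neg h, if_neg h, zpow_add₀ (Units.ne_zero r)]
    have h1 := sub_ne h
    field_simp
    ring

theorem br_one (r : ℂˣ) : br 1 r = 1 := by
  unfold br
  by_cases h : r = 1
  · rw [if_pos h]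
    norm_num
  · rw [if_neg h, zpow_one, div_self (sub_ne h)]

theorem aff_zpow (X : Aff) (n : ℤ) : X ^ n = ⟨X.m ^ n, br n X.m * X.b⟩ := by
  let T : Multiplicative ℤ →* Aff := MonoidHom.mk'
    (fun n => ⟨X.m ^ (Multiplicative.toAdd n), br (Multiplicative.toAdd n) X.m * X.b⟩) (by
      intro i j
      refine Aff.ext ?_ ?_
      · rw [mul_m, toAdd_mul, zpow_add]
      · rw [mul_b, toAdd_mul, br_add, Units.val_zpow_eq_zpow_val]
        ring)
  have h1 : T (Multiplicative.ofAdd 1) = X := by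
    refine Aff.ext ?_ ?_
    · change X.m ^ (1 : ℤ) = X.m
      rw [zpow_one]
    · change br 1 X.m * X.b = X.b
      rw [br_one, one_mul]
  have h2 : X ^ n = T (Multiplicative.ofAdd n) := by
    have h3 : (Multiplicative.ofAdd n) = (Multiplicative.ofAdd (1 : ℤ)) ^ n := by
      rw [← ofAdd_zsmul]
      simp
    rw [h3, map_zpow, h1]
  rw [h2]
  rfl

theorem rel_iff (k : ℕ) (p q : ℤ) (X A : Aff) (hA : A.m ^ p = A.m ^ q) :
    X ^ k * A ^ p * (X ^ k)⁻¹ = A ^ q ↔
      br k X.m * (1 - (A.m : ℂ) ^ q) * X.b + ((X.m : ℂ) ^ k * br p A.m - br q A.m) * A.b = 0 := by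
  have hk : X ^ k = ⟨X.m ^ k, br k X.m * X.b⟩ := by
    have := aff_zpow X k
    rw [zpow_natCast, zpow_natCast] at this
    exact this
  rw [mul_inv_eq_iff_eq_mul, hk, aff_zpow, aff_zpow, Aff.ext_iff, mul_m, mul_m, mul_b, mul_b]
  simp only [Units.val_pow_eq_pow_val, Units.val_zpow_eq_zpow_val]
  constructor
  · rintro ⟨-, h⟩
    linear_combination h
  · intro h
    refine ⟨?_, ?_⟩
    · rw [hA, mul_comm]
    · linear_combination h

variable {k : ℕ} {p q : ℤ}

/-- the homomorphism given by a crossed homomorphism -/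
noncomputable def cr (ρ : KP k p q →* ℂˣ) (c : KP k p q → ℂ)
    (hc : ∀ g h, c (g * h) = (ρ g : ℂ) * c h + c g) : KP k p q →* Aff :=
  MonoidHom.mk' (fun g => ⟨ρ g, c g⟩) (by
    intro g h
    refine Aff.ext ?_ ?_
    · rw [mul_m, map_mul]
    · rw [mul_b, hc])

theorem lin2 (P Q u v s t : ℂ) (h : P ≠ 0 ∨ Q ≠ 0) (hs : s ≠ 0 ∨ t ≠ 0)
    (h1 : P * u + Q * v = 0) (h2 : P * s + Q * t = 0) : ∃ l, u = l * s ∧ v = l * t := by
  have h3 : u * t - v * s = 0 := by
    rcases h with h | h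
    · have : P * (u * t - v * s) = 0 := by linear_combination t * h1 - v * h2
      exact (mul_eq_zero.1 this).resolve_left h
    · have : Q * (u * t - v * s) = 0 := by linear_combination u * h2 - s * h1
      exact (mul_eq_zero.1 this).resolve_left h
  rcases hs with hs | ht
  · refine ⟨u / s, ?_, ?_⟩
    · rw [div_mul_cancel₀ _ hs]
    · rw [div_mul_eq_mul_div, eq_div_iff hs]
      linear_combination -h3
  · refine ⟨v / t, ?_, ?_⟩
    · rw [div_mul_eq_mul_div, eq_div_iff ht]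
      linear_combination h3
    · rw [div_mul_cancel₀ _ ht]

theorem pf_KJ (KH : T_KH) : T_KJ := by
  intro k p q ρ hk hp hq hρ
  obtain ⟨hrel, hex, hun⟩ := KH k p q
  obtain ⟨ξ, hξ⟩ : ∃ ξ, ξ = ρ (kg true) := ⟨_, rfl⟩
  obtain ⟨α, hα⟩ : ∃ α, α = ρ (kg false) := ⟨_, rfl⟩
  have hαpq : α ^ p = α ^ q := by
    have h1 := congrArg ρ hrel
    rw [map_mul, map_mul, map_inv, map_pow, map_zpow, map_zpow, ← hξ, ← hα] at h1
    rw [← h1, mul_comm (ξ ^ k), mul_inv_cancel_right]
  obtain ⟨P, hP⟩ : ∃ P : ℂ, P = br k ξ * (1 - (α : ℂ) ^ q) := ⟨_, rfl⟩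
  obtain ⟨Q, hQ⟩ : ∃ Q : ℂ, Q = (ξ : ℂ) ^ k * br p α - br q α := ⟨_, rfl⟩
  -- crossed homomorphisms and solutions
  have E1 : ∀ c : KP k p q → ℂ, (∀ g h, c (g * h) = (ρ g : ℂ) * c h + c g) →
      P * c (kg true) + Q * c (kg false) = 0 := by
    intro c hc
    have h1 := congrArg (cr ρ c hc) hrel
    rw [map_mul, map_mul, map_inv, map_pow, map_zpow, map_zpow] at h1
    have h2 := (rel_iff k p q (cr ρ c hc (kg true)) (cr ρ c hc (kg false)) (by
      change (ρ (kg false)) ^ p = (ρ (kg false)) ^ q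
      rw [← hα]
      exact hαpq)).1 h1
    have h3 : (cr ρ c hc (kg true)).m = ξ := hξ.symm
    have h4 : (cr ρ c hc (kg false)).m = α := hα.symm
    rw [h3, h4, ← hP, ← hQ] at h2
    exact h2
  have E2 : ∀ u v : ℂ, P * u + Q * v = 0 → ∃ c : KP k p q → ℂ,
      (∀ g h, c (g * h) = (ρ g : ℂ) * c h + c g) ∧ c (kg true) = u ∧ c (kg false) = v := by
    intro u v huv
    obtain ⟨f, hf1, hf2⟩ := hex Aff ⟨ξ, u⟩ ⟨α, v⟩ ((rel_iff k p q ⟨ξ, u⟩ ⟨α, v⟩ hαpq).2 (by
      rw [← hP, ← hQ]
      exact huv))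
    have hm : (MonoidHom.mk' (fun g => (f g).m) (by
        intro g h
        rw [map_mul, mul_m]) : KP k p q →* ℂˣ) = ρ := by
      apply hun
      · change (f (kg true)).m = ρ (kg true)
        rw [hf1, ← hξ]
      · change (f (kg false)).m = ρ (kg false)
        rw [hf2, ← hα]
    have hm2 : ∀ g, (f g).m = ρ g := fun g => by
      rw [← hm]
      rfl
    refine ⟨fun g => (f g).b, ?_, ?_, ?_⟩
    · intro g h
      change (f (g * h)).b = (ρ g : ℂ) * (f h).b + (f g).b
      rw [map_mul, mul_b, hm2]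
    · change (f (kg true)).b = u
      rw [hf1]
    · change (f (kg false)).b = v
      rw [hf2]
  have E3 : ∀ c : KP k p q → ℂ, (∀ g h, c (g * h) = (ρ g : ℂ) * c h + c g) → ∀ l : ℂ,
      c (kg true) = l * ((ξ : ℂ) - 1) → c (kg false) = l * ((α : ℂ) - 1) →
      ∀ g, c g = l * ((ρ g : ℂ) - 1) := by
    intro c hc l h1 h2 g
    have hd : ∀ g h : KP k p q, l * ((ρ (g * h) : ℂ) - 1) =
        (ρ g : ℂ) * (l * ((ρ h : ℂ) - 1)) + l * ((ρ g : ℂ) - 1) := by
      intro g h
      rw [map_mul, Units.val_mul]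
      ring
    have h3 : cr ρ c hc = cr ρ (fun g => l * ((ρ g : ℂ) - 1)) hd := by
      apply hun
      · refine Aff.ext rfl ?_
        change c (kg true) = l * ((ρ (kg true) : ℂ) - 1)
        rw [h1, ← hξ]
      · refine Aff.ext rfl ?_
        change c (kg false) = l * ((ρ (kg false) : ℂ) - 1)
        rw [h2, ← hα]
    have h4 := congrArg Aff.b (DFunLike.congr_fun h3 g)
    exact h4
  have hne : (ξ : ℂ) - 1 ≠ 0 ∨ (α : ℂ) - 1 ≠ 0 := by
    by_contra hc
    rw [not_or, not_not, not_not] at hc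
    apply hρ
    apply hun
    · rw [← hξ, MonoidHom.one_apply]
      apply Units.ext
      rw [Units.val_one]
      linear_combination hc.1
    · rw [← hα, MonoidHom.one_apply]
      apply Units.ext
      rw [Units.val_one]
      linear_combination hc.2
  have hpr : P * ((ξ : ℂ) - 1) + Q * ((α : ℂ) - 1) = 0 := by
    have h1 := E1 (fun g => (ρ g : ℂ) - 1) (by
      intro g h
      rw [map_mul, Units.val_mul]
      ring)
    rw [← hξ, ← hα] at h1
    exact h1
  have key : Jmp ρ ↔ P = 0 ∧ Q = 0 := by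
    constructor
    · rintro ⟨c, hc, hnp⟩
      by_contra hPQ
      rw [not_and_or] at hPQ
      obtain ⟨l, hl1, hl2⟩ := lin2 P Q (c (kg true)) (c (kg false)) ((ξ : ℂ) - 1) ((α : ℂ) - 1)
        hPQ hne (E1 c hc) hpr
      exact hnp ⟨l, E3 c hc l hl1 hl2⟩
    · rintro ⟨hP0, hQ0⟩
      obtain ⟨u, v, huv⟩ : ∃ u v : ℂ, ¬ ∃ l : ℂ, u = l * ((ξ : ℂ) - 1) ∧
          v = l * ((α : ℂ) - 1) := by
        rcases hne with h | h
        · refine ⟨0, 1, ?_⟩
          rintro ⟨l, h1, h2⟩
          have h3 : l = 0 := (mul_eq_zero.1 h1.symm).resolve_right h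
          rw [h3, zero_mul] at h2
          exact one_ne_zero h2
        · refine ⟨1, 0, ?_⟩
          rintro ⟨l, h1, h2⟩
          have h3 : l = 0 := (mul_eq_zero.1 h2.symm).resolve_right h
          rw [h3, zero_mul] at h1
          exact one_ne_zero h1
      obtain ⟨c, hc, hc1, hc2⟩ := E2 u v (by rw [hP0, hQ0]; ring)
      refine ⟨c, hc, ?_⟩
      rintro ⟨l, hl⟩
      apply huv
      refine ⟨l, ?_, ?_⟩
      · rw [← hc1, hl, hξ]
      · rw [← hc2, hl, hα]
  rw [key, ← hξ, ← hα]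
  by_cases ha : α = 1
  · have hP0 : P = 0 := by
      rw [hP, ha, Units.val_one, one_zpow]
      ring
    have hQ1 : Q = (ξ : ℂ) ^ k * p - q := by
      rw [hQ]
      unfold br
      rw [if_pos ha, if_pos ha]
    constructor
    · rintro ⟨-, h⟩
      left
      refine ⟨ha, ?_⟩
      rw [hQ1] at h
      linear_combination h
    · rintro (⟨-, h⟩ | ⟨h, -⟩)
      · refine ⟨hP0, ?_⟩
        rw [hQ1]
        linear_combination h
      · exact absurd ha h
  · have h1 := sub_ne ha
    have hαc : (α : ℂ) ^ p = (α : ℂ) ^ q := by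
      rw [← Units.val_zpow_eq_zpow_val, ← Units.val_zpow_eq_zpow_val, hαpq]
    have hap : α ^ p = 1 ↔ (α : ℂ) ^ q = 1 := by
      rw [hαpq, ← Units.val_zpow_eq_zpow_val, Units.ext_iff, Units.val_one]
    have hQ1 : Q = ((ξ : ℂ) ^ k - 1) * ((α : ℂ) ^ q - 1) / ((α : ℂ) - 1) := by
      rw [hQ]
      unfold br
      rw [if_neg ha, if_neg ha, hαc]
      ring
    have hbk : br k ξ = 0 ↔ ξ ≠ 1 ∧ ξ ^ k = 1 := by
      unfold br
      by_cases hx : ξ = 1
      · rw [if_pos hx]
        constructor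
        · intro h
          exfalso
          have h2 : (k : ℂ) = 0 := by exact_mod_cast h
          rw [Nat.cast_eq_zero] at h2
          omega
        · rintro ⟨h, -⟩
          exact absurd hx h
      · rw [if_neg hx, div_eq_zero_iff]
        constructor
        · rintro (h | h)
          · refine ⟨hx, ?_⟩
            apply Units.ext
            rw [Units.val_pow_eq_pow_val, Units.val_one]
            rw [zpow_natCast] at h
            linear_combination h
          · exact absurd h (sub_ne hx)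
        · rintro ⟨-, h⟩
          left
          rw [zpow_natCast, ← Units.val_pow_eq_pow_val, h, Units.val_one, sub_self]
    constructor
    · rintro ⟨h2, h3⟩
      right
      refine ⟨ha, ?_⟩
      by_cases h4 : (α : ℂ) ^ q = 1
      · exact Or.inl (hap.2 h4)
      · right
        rw [hP, mul_eq_zero] at h2
        have h5 := h2.resolve_right (by
          intro h6
          apply h4
          linear_combination -h6)
        obtain ⟨h6, h7⟩ := hbk.1 h5
        exact ⟨h7, h6⟩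
    · rintro (⟨h, -⟩ | ⟨-, h⟩)
      · exact absurd h ha
      · rcases h with h | ⟨h2, h3⟩
        · rw [hap] at h
          refine ⟨?_, ?_⟩
          · rw [hP, h]
            ring
          · rw [hQ1, h]
            ring
        · refine ⟨?_, ?_⟩
          · rw [hP, hbk.2 ⟨h3, h2⟩, zero_mul]
          · have h4 : (ξ : ℂ) ^ k = 1 := by
              rw [← Units.val_pow_eq_pow_val, h2, Units.val_one]
            rw [hQ1, h4]
            ring

end Pool.Agent.H70.OR.KJ
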